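import Pool.Agent.TH55.LP.Rel

set_option autoImplicit false

/-! The bound for the exponent of `q` in `F - 1`, for nondegenerate `F`. -/

namespace Pool.Agent.TH55.LP

open Real

theorem nondeg {F N P q a m b m' : ℕ} (hP : P + 1 = F) (hN : F ∣ N + 1)
    (hNe : N = q ^ a * m) (hPe : P = q ^ b * m') (hq : Nat.Coprime F q) (hq1 : 2 ≤ q) (hm : 2 ≤ m)
    (hm' : 1 ≤ m') (hne : ∀ u v : ℕ, 1 ≤ v → N ^ u ≠ P ^ v)
    (hA : 4 * log m ≤ a * log q) :
    b * log q ≤ 4 / 3 * (log 2 + 9 / 2 * log m) + a * log q * log m' / (3 * log m) := by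
  have hlq : 0 < log q := log_pos (by exact_mod_cast (show 1 < q by omega))
  have hM : 0 < log m := log_pos (by exact_mod_cast (show 1 < m by omega))
  have hμ : 0 ≤ log m' := log_nonneg (by exact_mod_cast hm')
  have hA0 : 0 < (a : ℝ) * log q := by linarith
  have ha0 : (0 : ℝ) < a := by
    by_contra hc
    have : (a : ℝ) = 0 := le_antisymm (not_lt.1 hc) (Nat.cast_nonneg a)
    rw [this] at hA0; simp at hA0
  have hb0 : (0 : ℝ) ≤ b := Nat.cast_nonneg b
  set A : ℝ := a * log q with hAdef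
  set M : ℝ := log m with hMdef
  set V : ℕ := ⌊A / (4 * M)⌋₊ with hV
  have hV1 : 0 < V := by
    rw [hV, Nat.floor_pos, le_div_iff₀ (by positivity)]; linarith
  have hVle : (V : ℝ) ≤ A / (4 * M) := Nat.floor_le (by positivity)
  have hVlt : A / (4 * M) < V + 1 := Nat.lt_floor_add_one _
  obtain ⟨v, hv0, hvV, hap⟩ := Real.exists_nat_abs_mul_sub_round_le ((b : ℝ) / a) hV1
  set u : ℕ := (round ((v : ℝ) * ((b : ℝ) / a))).toNat with hu
  have hround0 : 0 ≤ round ((v : ℝ) * ((b : ℝ) / a)) := by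
    have h1 : |(v : ℝ) * ((b : ℝ) / a) - round ((v : ℝ) * ((b : ℝ) / a))| ≤ 1 / 2 := abs_sub_round _
    have h2 : 0 ≤ (v : ℝ) * ((b : ℝ) / a) := by positivity
    have h3 := (abs_le.1 h1).2
    by_contra hc
    have h4 : round ((v : ℝ) * ((b : ℝ) / a)) ≤ -1 := by omega
    have h5 : ((round ((v : ℝ) * ((b : ℝ) / a)) : ℤ) : ℝ) ≤ -1 := by exact_mod_cast h4
    linarith
  have hucast : ((round ((v : ℝ) * ((b : ℝ) / a)) : ℤ) : ℝ) = (u : ℝ) := by
    rw [hu]
    have : ((round ((v : ℝ) * ((b : ℝ) / a))).toNat : ℤ) = round ((v : ℝ) * ((b : ℝ) / a)) :=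
      Int.toNat_of_nonneg hround0
    exact_mod_cast this.symm
  rw [hucast] at hap
  have hVr : (1 : ℝ) ≤ V := by exact_mod_cast hV1
  have hap2 : |(v : ℝ) * ((b : ℝ) / a) - u| ≤ 1 / 2 :=
    hap.trans (by
      rw [div_le_div_iff₀ (by positivity) (by norm_num)]; linarith)
  -- the difference `d`
  obtain ⟨d, hd, hdr⟩ : ∃ d : ℕ, (a * u = b * v + d ∨ b * v = a * u + d) ∧
      (d : ℝ) = a * |(v : ℝ) * ((b : ℝ) / a) - u| := by
    have e0 : (a : ℝ) * ((v : ℝ) * ((b : ℝ) / a) - u) = b * v - a * u := by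
      field_simp
    rcases Nat.le_total (a * u) (b * v) with h | h
    · refine ⟨b * v - a * u, Or.inr (by omega), ?_⟩
      rw [Nat.cast_sub h]; push_cast
      have h1 : (a : ℝ) * u ≤ b * v := by exact_mod_cast h
      have h2 : 0 ≤ (a : ℝ) * ((v : ℝ) * ((b : ℝ) / a) - u) := by rw [e0]; linarith
      have h3 : 0 ≤ (v : ℝ) * ((b : ℝ) / a) - u := nonneg_of_mul_nonneg_right h2 ha0
      rw [abs_of_nonneg h3, e0]
    · refine ⟨a * u - b * v, Or.inl (by omega), ?_⟩
      rw [Nat.cast_sub h]; push_cast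
      have h1 : (b : ℝ) * v ≤ a * u := by exact_mod_cast h
      have h2 : (a : ℝ) * ((v : ℝ) * ((b : ℝ) / a) - u) ≤ 0 := by rw [e0]; linarith
      have h3 : (v : ℝ) * ((b : ℝ) / a) - u ≤ 0 := by
        by_contra hc
        have : 0 < (a : ℝ) * ((v : ℝ) * ((b : ℝ) / a) - u) := mul_pos ha0 (not_le.1 hc)
        linarith
      rw [abs_of_nonpos h3, mul_neg, e0]; ring
  have hrel := rel hP hN hNe hPe hq (by omega) (by omega) hm' hd (hne u v hv0)
  -- take logarithms
  have hq0 : (0 : ℝ) < q := by exact_mod_cast (show 0 < q by omega)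
  have hm0 : (0 : ℝ) < m := by exact_mod_cast (show 0 < m by omega)
  have hm'0 : (0 : ℝ) < m' := by exact_mod_cast (show 0 < m' by omega)
  have hPr : (P : ℝ) = (q : ℝ) ^ b * m' := by rw [hPe]; push_cast; ring
  have hlogP : log P = b * log q + log m' := by
    rw [hPr, log_mul (by positivity) (by positivity), log_pow]
  have hlog : log P ≤ log 2 + (d * log q + u * M + v * log m') := by
    have h1 : (P : ℝ) ≤ 2 * ((q : ℝ) ^ d * (m : ℝ) ^ u * (m' : ℝ) ^ v) := by
      have : P ≤ 2 * (q ^ d * m ^ u * m' ^ v) := by omega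
      exact_mod_cast this
    have h2 : (0 : ℝ) < P := by rw [hPr]; positivity
    have h3 := log_le_log h2 h1
    rwa [log_mul (by norm_num) (by positivity), log_mul (by positivity) (by positivity),
      log_mul (by positivity) (by positivity), log_pow, log_pow, log_pow] at h3
  rw [hlogP] at hlog
  -- the three terms
  have t1 : (d : ℝ) * log q ≤ 4 * M := by
    rw [hdr]
    have h1 : (a : ℝ) * |(v : ℝ) * ((b : ℝ) / a) - u| * log q ≤ A * (1 / ((V : ℝ) + 1)) := by
      rw [hAdef]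
      have : (a : ℝ) * |(v : ℝ) * ((b : ℝ) / a) - u| * log q =
          (a * log q) * |(v : ℝ) * ((b : ℝ) / a) - u| := by ring
      rw [this]
      exact mul_le_mul_of_nonneg_left hap hA0.le
    refine h1.trans ?_
    rw [mul_one_div, div_le_iff₀ (by positivity)]
    have h2 : A < ((V : ℝ) + 1) * (4 * M) := by
      rwa [div_lt_iff₀ (by positivity)] at hVlt
    linarith
  have hvr : (v : ℝ) ≤ A / (4 * M) := le_trans (by exact_mod_cast hvV) hVle
  have t2 : (u : ℝ) * M ≤ b * log q / 4 + M / 2 := by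
    have h1 : (u : ℝ) ≤ v * ((b : ℝ) / a) + 1 / 2 := by
      have := (abs_le.1 hap2).1
      linarith
    have h2 : (v : ℝ) * ((b : ℝ) / a) ≤ A / (4 * M) * ((b : ℝ) / a) :=
      mul_le_mul_of_nonneg_right hvr (by positivity)
    have h3 : A / (4 * M) * ((b : ℝ) / a) * M = b * log q / 4 := by
      rw [hAdef]; field_simp
    calc (u : ℝ) * M ≤ (A / (4 * M) * ((b : ℝ) / a) + 1 / 2) * M :=
          mul_le_mul_of_nonneg_right (by linarith) hM.le
      _ = _ := by rw [add_mul, h3]; ring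
  have t3 : (v : ℝ) * log m' ≤ A * log m' / (4 * M) := by
    calc (v : ℝ) * log m' ≤ A / (4 * M) * log m' := mul_le_mul_of_nonneg_right hvr hμ
      _ = _ := by ring
  have t4 : A * log m' / (3 * M) = 4 / 3 * (A * log m' / (4 * M)) := by
    field_simp
  rw [t4]
  linarith

end Pool.Agent.TH55.LP
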