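import Pool.Agent.TH55.LP.Tot
import Pool.Agent.H95R2.Leh.FamLeh

set_option autoImplicit false

/-! Lehmer numbers: the part of `n - 1` prime to a given prime is large. -/

namespace Pool.Agent.TH55.LP

open Real Finset
open Pool.Agent.H95R2.Leh (Leh leh_basic)

/-- the data of a Lehmer number -/
theorem dat_of_leh {n q a m : ℕ} (h : Leh n) (hq : q.Prime) (hnm : n - 1 = q ^ a * m) (hqm : ¬ q ∣ m) :
    Dat ℕ n.primeFactors (fun p => p) n q a m := by
  obtain ⟨hsq, hodd, _⟩ := leh_basic h
  have hn1 := h.1
  have hprod : ∏ p ∈ n.primeFactors, p = n := Nat.prod_primeFactors_of_squarefree hsq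
  have htot : n.totient = ∏ p ∈ n.primeFactors, (p - 1) := by
    have h1 := Nat.totient_mul_prod_primeFactors n
    rw [hprod, mul_comm] at h1
    exact Nat.eq_of_mul_eq_mul_left (by omega) h1
  refine ⟨?_, ?_, ?_, hprod, ?_, hq, hnm, hqm⟩
  · by_contra hc
    have h1 : n.primeFactors.card ≤ 1 := by omega
    rcases Nat.lt_or_ge 0 n.primeFactors.card with h2 | h2
    · obtain ⟨p, hp⟩ := Finset.card_eq_one.1 (show n.primeFactors.card = 1 by omega)
      rw [hp, prod_singleton] at hprod
      have : p ∈ n.primeFactors := by rw [hp]; exact mem_singleton_self p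
      exact h.2.1 (hprod ▸ Nat.prime_of_mem_primeFactors this)
    · have h3 : n.primeFactors = ∅ := Finset.card_eq_zero.1 (by omega)
      rw [h3, prod_empty] at hprod
      omega
  · intro p hp
    have hpp := Nat.prime_of_mem_primeFactors hp
    have h2 := hpp.two_le
    have h3 : p ≠ 2 := by
      rintro rfl
      have := hodd.of_dvd_nat (Nat.dvd_of_mem_primeFactors hp)
      exact absurd this (by decide)
    omega
  · intro p hp r hr hpr
    exact (Nat.coprime_primes (Nat.prime_of_mem_primeFactors hp) (Nat.prime_of_mem_primeFactors hr)).2 hpr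
  · rw [← htot]; exact h.2.2

/-- `log 3 ≥ (19/12) log 2` -/
theorem log3 : 19 / 12 * log 2 ≤ log 3 := by
  have h : log ((2 : ℝ) ^ 19) ≤ log ((3 : ℝ) ^ 12) := log_le_log (by positivity) (by norm_num)
  rw [log_pow, log_pow] at h
  push_cast at h
  linarith

/-- the number of prime factors -/
theorem card_le {n q a m : ℕ} (h : Leh n) (hq : q.Prime) (hnm : n - 1 = q ^ a * m) (hqm : ¬ q ∣ m)
    (hA : 4 * log m ≤ a * log q) : (n.primeFactors.card : ℝ) ≤ 49 / 10 * log m := by
  classical
  have hd := dat_of_leh h hq hnm hqm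
  obtain ⟨hsq, hodd, _⟩ := leh_basic h
  have hm := hd.m2
  have hM2 : log 2 ≤ log m := log_le_log (by norm_num) (by exact_mod_cast hm)
  have hl2 : 0.6931471803 < log 2 := Real.log_two_gt_d9
  have hM : 0 < log m := by linarith
  have hlq : 0 < log q := log_pos (by exact_mod_cast hq.one_lt)
  have ha : 1 ≤ a := by
    by_contra hc
    have h0 : a = 0 := by omega
    rw [h0] at hA; push_cast at hA; linarith
  have hsum := hd.sum_mx
  -- a lower bound for the number of factors with large `mx`
  have hcount : ∀ (c : ℕ), 2 ≤ c → (∀ p ∈ n.primeFactors, mx q p ≠ 1 → c ≤ mx q p) →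
      ((n.primeFactors.filter (fun p => mx q p ≠ 1)).card : ℝ) * log c ≤ log m := by
    intro c hc hcp
    have h1 : ∑ p ∈ n.primeFactors.filter (fun p => mx q p ≠ 1), log (c : ℝ) ≤
        ∑ p ∈ n.primeFactors.filter (fun p => mx q p ≠ 1), log (mx q p) := by
      refine sum_le_sum fun p hp => ?_
      rw [mem_filter] at hp
      exact log_le_log (by exact_mod_cast (show 0 < c by omega)) (by exact_mod_cast hcp p hp.1 hp.2)
    rw [sum_const, nsmul_eq_mul] at h1
    have h2 : ∑ p ∈ n.primeFactors.filter (fun p => mx q p ≠ 1), log (mx q p) ≤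
        ∑ p ∈ n.primeFactors, log (mx q p) := by
      refine sum_le_sum_of_subset_of_nonneg (filter_subset _ _) fun p hp _ => ?_
      have h3 := hd.F3 p hp
      exact log_nonneg (by exact_mod_cast mx_pos (q := q) (show 2 ≤ p by omega))
    exact h1.trans (h2.trans hsum)
  have hsplit : (n.primeFactors.card : ℝ) = ((n.primeFactors.filter (fun p => mx q p = 1)).card : ℝ) +
      ((n.primeFactors.filter (fun p => mx q p ≠ 1)).card : ℝ) := by
    exact_mod_cast (card_filter_add_card_filter_not (s := n.primeFactors) (fun p => mx q p = 1)).symm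
  rcases hq.eq_two_or_odd' with h2 | hqo
  · -- `q = 2`
    subst h2
    have hc1 := hcount 3 (by norm_num) (fun p hp hne => by
      have h3 := hd.F3 p hp
      have h4 := mx_pos (q := 2) (show 2 ≤ p by omega)
      have h5 := not_dvd_mx (q := 2) Nat.prime_two (show 2 ≤ p by omega)
      omega)
    push_cast at hc1
    set X : ℝ := 4 / 3 + 6 * log m / log 2 with hX
    have hXm : 6 ≤ 6 * log m / log 2 := by rw [le_div_iff₀ (by linarith)]; linarith
    have hX1 : 1 ≤ X := by rw [hX]; linarith
    set J : ℕ := Nat.log 2 ⌊X⌋₊ with hJ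
    have hfl : 1 ≤ ⌊X⌋₊ := (Nat.one_le_floor_iff X).2 hX1
    have hsub : n.primeFactors.filter (fun p => mx 2 p = 1) ⊆ (range (J + 1)).image (fun j => 2 ^ 2 ^ j + 1) := by
      intro p hp
      rw [mem_filter] at hp
      obtain ⟨hp, hmx⟩ := hp
      have hpp := Nat.prime_of_mem_primeFactors hp
      have h3 : 3 ≤ p := hd.F3 p hp
      have hpe : p - 1 = 2 ^ bx 2 p := by
        conv_lhs => rw [bx_mx 2 p]
        rw [hmx, mul_one]
      have hpe' : p = 2 ^ bx 2 p + 1 := by omega
      have hb0 : bx 2 p ≠ 0 := by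
        intro h0
        rw [h0] at hpe'; omega
      obtain ⟨j, hj⟩ := Nat.pow_of_pow_add_prime (a := 2) (by norm_num) hb0 (by rw [← hpe']; exact hpp)
      have hnd : ¬ Dg (fun p => p) n p := by
        intro hdg
        obtain ⟨w, _, hw3, hN⟩ := hd.dg hp hdg
        rw [hnm, hpe, ← pow_mul] at hN
        have : m ∣ 2 ^ (bx 2 p * w) := by rw [← hN]; exact dvd_mul_left _ _
        obtain ⟨k, _, hk⟩ := (Nat.dvd_prime_pow Nat.prime_two).1 this
        have hk0 : k ≠ 0 := by
          rintro rfl
          rw [pow_zero] at hk; omega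
        exact hqm (by rw [hk]; exact dvd_pow_self 2 hk0)
      have h4 := hd.nd ha hm hA hp hnd
      rw [hmx] at h4
      simp only [Nat.cast_one, log_one, mul_zero, zero_div, add_zero] at h4
      have h5 : (bx 2 p : ℝ) ≤ X := by
        rw [hX]
        have : (bx 2 p : ℝ) * log 2 ≤ (4 / 3 + 6 * log m / log 2) * log 2 := by
          have e : (4 / 3 + 6 * log m / log 2) * log 2 = 4 / 3 * log 2 + 6 * log m := by
            field_simp
          rw [e]
          have h4' : (bx 2 p : ℝ) * log ((2 : ℕ) : ℝ) ≤ 4 / 3 * (log 2 + 9 / 2 * log m) := h4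
          push_cast at h4'
          linarith
        exact le_of_mul_le_mul_right this (by linarith)
      have h6 : 2 ^ j ≤ ⌊X⌋₊ := by
        rw [← hj]; exact Nat.le_floor h5
      rw [mem_image]
      refine ⟨j, ?_, ?_⟩
      · rw [mem_range, Nat.lt_succ_iff, hJ]
        exact (Nat.le_log_iff_pow_le (by norm_num) (by omega)).2 h6
      · rw [← hj, ← hpe']
    have hc0 : (n.primeFactors.filter (fun p => mx 2 p = 1)).card ≤ J + 1 :=
      (card_le_card hsub).trans (card_image_le.trans (by rw [card_range]))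
    have hJX : (2 : ℝ) ^ J ≤ X := by
      have h1 : 2 ^ J ≤ ⌊X⌋₊ := Nat.pow_log_le_self 2 (by omega)
      exact le_trans (by exact_mod_cast h1) (Nat.floor_le (by linarith))
    have h8 : 8 * (J : ℝ) - 16 ≤ 2 ^ J := by
      have : ∀ k : ℕ, 8 * k ≤ 2 ^ k + 16 := by
        intro k
        induction k with
        | zero => norm_num
        | succ k ih =>
          rcases Nat.lt_or_ge k 3 with hk | hk
          · interval_cases k <;> norm_num
          · have : 2 ^ 3 ≤ 2 ^ k := Nat.pow_le_pow_right (by norm_num) hk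
            rw [pow_succ]; omega
      have h9 : (8 * J : ℝ) ≤ 2 ^ J + 16 := by exact_mod_cast this J
      linarith
    have hc0' : ((n.primeFactors.filter (fun p => mx 2 p = 1)).card : ℝ) ≤ X / 8 + 3 := by
      have : ((n.primeFactors.filter (fun p => mx 2 p = 1)).card : ℝ) ≤ J + 1 := by exact_mod_cast hc0
      linarith
    have hm3 : 3 ≤ m := by omega
    have hM3 : log 3 ≤ log m := log_le_log (by norm_num) (by exact_mod_cast hm3)
    have hl3 := log3
    have h10 : 6 * log m / log 2 ≤ 6 * log m / 0.6931471803 :=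
      div_le_div_of_nonneg_left (by positivity) (by norm_num) hl2.le
    have h11 : ((n.primeFactors.filter (fun p => mx 2 p ≠ 1)).card : ℝ) ≤ log m / 1.0974 := by
      rw [le_div_iff₀ (by norm_num)]
      have : (1.0974 : ℝ) ≤ log 3 := by linarith
      have h12 : ((n.primeFactors.filter (fun p => mx 2 p ≠ 1)).card : ℝ) * 1.0974 ≤
          ((n.primeFactors.filter (fun p => mx 2 p ≠ 1)).card : ℝ) * log 3 :=
        mul_le_mul_of_nonneg_left this (by positivity)
      linarith
    rw [hsplit]
    have h13 : (1.0974 : ℝ) ≤ log m := by linarith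
    have h14 : 6 * log m / 0.6931471803 = (6 / 0.6931471803) * log m := by ring
    have h15 : log m / 1.0974 = (1 / 1.0974) * log m := by ring
    rw [h14] at h10
    rw [h15] at h11
    have h16 : (6 / 0.6931471803 : ℝ) ≤ 8.657 := by norm_num
    have h17 : (1 / 1.0974 : ℝ) ≤ 0.912 := by norm_num
    have h18 : (6 / 0.6931471803) * log m ≤ 8.657 * log m := mul_le_mul_of_nonneg_right h16 hM.le
    have h19 : (1 / 1.0974) * log m ≤ 0.912 * log m := mul_le_mul_of_nonneg_right h17 hM.le
    linarith
  · -- `q` odd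
    have hc1 := hcount 2 le_rfl (fun p hp hne => by
      have h3 := hd.F3 p hp
      have h4 := mx_pos (q := q) (show 2 ≤ p by omega)
      omega)
    push_cast at hc1
    have hc0 : n.primeFactors.filter (fun p => mx q p = 1) = ∅ := by
      rw [filter_eq_empty_iff]
      intro p hp hmx
      have hpp := Nat.prime_of_mem_primeFactors hp
      have h3 : 3 ≤ p := hd.F3 p hp
      have hpe : p - 1 = q ^ bx q p := by
        conv_lhs => rw [bx_mx q p]
        rw [hmx, mul_one]
      have h4 : Odd (q ^ bx q p) := hqo.pow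
      rw [← hpe] at h4
      have h5 : Odd p := hpp.odd_of_ne_two (by omega)
      obtain ⟨x, hx⟩ := h4
      obtain ⟨y, hy⟩ := h5
      omega
    rw [hsplit, hc0, card_empty, Nat.cast_zero, zero_add]
    have h11 : ((n.primeFactors.filter (fun p => mx q p ≠ 1)).card : ℝ) ≤ log m / 0.6931471803 := by
      rw [le_div_iff₀ (by norm_num)]
      have h12 : ((n.primeFactors.filter (fun p => mx q p ≠ 1)).card : ℝ) * 0.6931471803 ≤
          ((n.primeFactors.filter (fun p => mx q p ≠ 1)).card : ℝ) * log 2 :=
        mul_le_mul_of_nonneg_left hl2.le (by positivity)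
      linarith
    have h15 : log m / 0.6931471803 = (1 / 0.6931471803) * log m := by ring
    rw [h15] at h11
    have h17 : (1 / 0.6931471803 : ℝ) ≤ 1.45 := by norm_num
    have h19 : (1 / 0.6931471803) * log m ≤ 1.45 * log m := mul_le_mul_of_nonneg_right h17 hM.le
    linarith

/-- both inequalities for `q` not dividing `m` -/
theorem main {n q a m : ℕ} (h : Leh n) (hq : q.Prime) (hnm : n - 1 = q ^ a * m) (hqm : ¬ q ∣ m) :
    log n ≤ 26 * n.primeFactors.card * log m ∧ log n ≤ 128 * log m ^ 2 := by
  have hd := dat_of_leh h hq hnm hqm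
  have hm := hd.m2
  have hM2 : log 2 ≤ log m := log_le_log (by norm_num) (by exact_mod_cast hm)
  have hl2 : 0.6931471803 < log 2 := Real.log_two_gt_d9
  have hM : 0 < log m := by linarith
  have hK : (2 : ℝ) ≤ n.primeFactors.card := by exact_mod_cast hd.card
  have hq0 : (0 : ℝ) < q := by exact_mod_cast hq.pos
  have hm0 : (0 : ℝ) < m := by exact_mod_cast hd.m0
  have hn3 := hd.n3
  have h1 : log n ≤ a * log q + log m + log 2 := by
    have e1 : (n : ℝ) ≤ ((q : ℝ) ^ a * m) * 2 := by
      have : n ≤ (q ^ a * m) * 2 := by rw [← hnm]; omega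
      exact_mod_cast this
    have e2 := log_le_log (by exact_mod_cast (show 0 < n by omega)) e1
    rwa [log_mul (by positivity) (by norm_num), log_mul (by positivity) (by positivity), log_pow] at e2
  have h2 := hd.total
  have h3 : log n ≤ 26 * n.primeFactors.card * log m := by nlinarith
  refine ⟨h3, ?_⟩
  by_cases hA : 4 * log m ≤ a * log q
  · have h4 := card_le h hq hnm hqm hA
    nlinarith
  · nlinarith

/-- the general case -/
theorem main' {n q a m : ℕ} (h : Leh n) (hq : q.Prime) (hnm : n - 1 = q ^ a * m) :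
    log n ≤ 26 * n.primeFactors.card * log m ∧ log n ≤ 128 * log m ^ 2 := by
  have hn1 := h.1
  have hm0 : m ≠ 0 := by
    rintro rfl
    rw [mul_zero] at hnm; omega
  obtain ⟨c, m', hm', hmm'⟩ := Nat.exists_eq_pow_mul_and_not_dvd hm0 q hq.ne_one
  have h1 : n - 1 = q ^ (a + c) * m' := by rw [hnm, hmm', pow_add]; ring
  obtain ⟨h2, h3⟩ := main h hq h1 hm'
  have hm'0 : 0 < m' := Nat.pos_of_ne_zero (by rintro rfl; simp at hm')
  have h4 : m' ≤ m := by
    rw [hmm']; exact Nat.le_mul_of_pos_left _ (pow_pos hq.pos _)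
  have h5 : log m' ≤ log m := log_le_log (by exact_mod_cast hm'0) (by exact_mod_cast h4)
  have h6 : 0 ≤ log m' := log_nonneg (by exact_mod_cast hm'0)
  constructor
  · refine h2.trans (mul_le_mul_of_nonneg_left h5 (by positivity))
  · refine h3.trans ?_
    have : log m' ^ 2 ≤ log m ^ 2 := pow_le_pow_left₀ h6 h5 2
    linarith

end Pool.Agent.TH55.LP
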