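import Mathlib

set_option autoImplicit false

/-! Lehmer's totient problem: multiplicative relations between `n - 1` and `F - 1` modulo a divisor `F` of `n`. -/

namespace Pool.Agent.TH55.LP

/-- if `N ≡ P ≡ -1` modulo `F`, then `N ^ u ≡ ± P ^ v`, and this bounds `F` -/
theorem rel {F N P q a m b m' u v d : ℕ} (hP : P + 1 = F) (hN : F ∣ N + 1)
    (hNe : N = q ^ a * m) (hPe : P = q ^ b * m') (hq : Nat.Coprime F q) (hq1 : 1 ≤ q) (hm : 1 ≤ m)
    (hm' : 1 ≤ m') (hd : a * u = b * v + d ∨ b * v = a * u + d) (hne : N ^ u ≠ P ^ v) :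
    F ≤ 2 * (q ^ d * m ^ u * m' ^ v) := by
  set s : ℤ := (-1) ^ (u + v) with hs
  have hs1 : s = 1 ∨ s = -1 := neg_one_pow_eq_or ℤ (u + v)
  have c1 : (N : ℤ) ≡ -1 [ZMOD F] := by
    have h : (F : ℤ) ∣ (N : ℤ) + 1 := by exact_mod_cast hN
    exact (Int.modEq_iff_dvd.2 (by rw [show (-1 : ℤ) - N = -((N : ℤ) + 1) by ring]; exact (dvd_neg).2 h))
  have c2 : (P : ℤ) ≡ -1 [ZMOD F] := by
    refine Int.modEq_iff_dvd.2 ?_
    rw [show (-1 : ℤ) - P = -((P : ℤ) + 1) by ring]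
    refine (dvd_neg).2 ?_
    rw [← hP]; push_cast; exact dvd_refl _
  have key : (F : ℤ) ∣ (N : ℤ) ^ u - s * (P : ℤ) ^ v := by
    have h1 : (N : ℤ) ^ u ≡ (-1) ^ u [ZMOD F] := c1.pow u
    have h2 : s * (P : ℤ) ^ v ≡ s * (-1) ^ v [ZMOD F] := (c2.pow v).mul_left s
    have h3 : s * (-1) ^ v = (-1) ^ u := by
      rw [hs, pow_add, mul_assoc, ← pow_add, ← two_mul, pow_mul]; simp
    rw [h3] at h2
    exact (h2.trans h1.symm).dvd
  have hcop : ∀ j : ℕ, IsCoprime (F : ℤ) ((q : ℤ) ^ j) := fun j =>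
    (Nat.isCoprime_iff_coprime.2 hq).pow_right
  have hpos1 : (1 : ℤ) ≤ (q : ℤ) ^ d := one_le_pow₀ (by exact_mod_cast hq1)
  have hpos2 : (1 : ℤ) ≤ (m : ℤ) ^ u := one_le_pow₀ (by exact_mod_cast hm)
  have hpos3 : (1 : ℤ) ≤ (m' : ℤ) ^ v := one_le_pow₀ (by exact_mod_cast hm')
  have hq0 : (0 : ℤ) < q := by exact_mod_cast hq1
  have hzero : ∀ j : ℕ, ∀ D : ℤ, (N : ℤ) ^ u - s * (P : ℤ) ^ v = (q : ℤ) ^ j * D → D ≠ 0 := by
    intro j D hD h0
    rw [h0, mul_zero] at hD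
    have e1 : (N : ℤ) ^ u = s * (P : ℤ) ^ v := by linarith
    have hPpos : (0 : ℤ) < (P : ℤ) ^ v := by
      rw [hPe]; push_cast; positivity
    have hNpos : (0 : ℤ) < (N : ℤ) ^ u := by
      rw [hNe]; push_cast; positivity
    rcases hs1 with h | h
    · rw [h, one_mul] at e1
      exact hne (by exact_mod_cast e1)
    · rw [h] at e1
      linarith
  have hfin : ∀ D : ℤ, D ≠ 0 → (F : ℤ) ∣ D → |D| ≤ 2 * ((q : ℤ) ^ d * m ^ u * m' ^ v) →
      F ≤ 2 * (q ^ d * m ^ u * m' ^ v) := by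
    intro D h0 h1 h2
    have h3 : (F : ℤ) ≤ |D| := Int.le_of_dvd (abs_pos.2 h0) ((dvd_abs _ _).2 h1)
    exact_mod_cast h3.trans h2
  rcases hd with hd | hd
  · have e : (N : ℤ) ^ u - s * (P : ℤ) ^ v =
        (q : ℤ) ^ (b * v) * ((q : ℤ) ^ d * (m : ℤ) ^ u - s * (m' : ℤ) ^ v) := by
      rw [hNe, hPe]; push_cast
      rw [mul_pow, mul_pow, ← pow_mul, ← pow_mul, hd, pow_add]; ring
    rw [e] at key
    have h1 := (hcop (b * v)).dvd_of_dvd_mul_left key
    refine hfin _ (hzero _ _ e) h1 ?_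
    have h4 : |(q : ℤ) ^ d * (m : ℤ) ^ u - s * (m' : ℤ) ^ v| ≤ (q : ℤ) ^ d * (m : ℤ) ^ u + (m' : ℤ) ^ v := by
      refine (abs_sub _ _).trans ?_
      rw [abs_mul s, abs_of_nonneg (show (0:ℤ) ≤ (q : ℤ) ^ d * (m : ℤ) ^ u by positivity),
        abs_of_nonneg (show (0:ℤ) ≤ (m' : ℤ) ^ v by positivity)]
      rcases hs1 with h | h <;> rw [h] <;> simp
    have h5 : (1 : ℤ) ≤ (q : ℤ) ^ d * (m : ℤ) ^ u := by nlinarith
    nlinarith
  · have e : (N : ℤ) ^ u - s * (P : ℤ) ^ v =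
        (q : ℤ) ^ (a * u) * ((m : ℤ) ^ u - s * ((q : ℤ) ^ d * (m' : ℤ) ^ v)) := by
      rw [hNe, hPe]; push_cast
      rw [mul_pow, mul_pow, ← pow_mul, ← pow_mul, hd, pow_add]; ring
    rw [e] at key
    have h1 := (hcop (a * u)).dvd_of_dvd_mul_left key
    refine hfin _ (hzero _ _ e) h1 ?_
    have h4 : |(m : ℤ) ^ u - s * ((q : ℤ) ^ d * (m' : ℤ) ^ v)| ≤ (m : ℤ) ^ u + (q : ℤ) ^ d * (m' : ℤ) ^ v := by
      refine (abs_sub _ _).trans ?_
      rw [abs_mul s, abs_of_nonneg (show (0:ℤ) ≤ (m : ℤ) ^ u by positivity),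
        abs_of_nonneg (show (0:ℤ) ≤ (q : ℤ) ^ d * (m' : ℤ) ^ v by positivity)]
      rcases hs1 with h | h <;> rw [h] <;> simp
    have h5 : (1 : ℤ) ≤ (q : ℤ) ^ d * (m' : ℤ) ^ v := by nlinarith
    nlinarith

/-- the degenerate case -/
theorem deg {F N P u v : ℕ} (hF : 3 ≤ F) (hP : P + 1 = F) (hN : F ∣ N + 1) (hu : 1 ≤ u)
    (h : N ^ u = P ^ v) : ∃ w, Odd w ∧ N = P ^ w := by
  have hP2 : 2 ≤ P := by omega
  set w := v / u with hw
  set r := v % u with hr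
  have hv : v = w * u + r := by rw [hw, hr, mul_comm]; exact (Nat.div_add_mod v u).symm
  have hru : r < u := Nat.mod_lt _ hu
  have h1 : P ^ w ∣ N := by
    rw [← Nat.pow_dvd_pow_iff (show u ≠ 0 by omega), h, ← pow_mul]
    exact pow_dvd_pow _ (by omega)
  obtain ⟨Y, hY⟩ := h1
  have h2 : Y ^ u = P ^ r := by
    have e : P ^ (w * u) * Y ^ u = P ^ (w * u) * P ^ r := by
      rw [← pow_add, ← hv, ← h, hY, mul_pow, pow_mul]
    exact Nat.eq_of_mul_eq_mul_left (by positivity) e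
  have h3 : Y < P := by
    have : Y ^ u < P ^ u := by rw [h2]; exact Nat.pow_lt_pow_right (by omega) hru
    exact lt_of_pow_lt_pow_left₀ u (by omega) this
  have hY0 : 1 ≤ Y := by
    rcases Nat.eq_zero_or_pos Y with h0 | h0
    · rw [h0, zero_pow (by omega)] at h2
      have : 0 < P ^ r := by positivity
      omega
    · exact h0
  have c2 : (P : ℤ) ≡ -1 [ZMOD F] := by
    refine Int.modEq_iff_dvd.2 ?_
    rw [show (-1 : ℤ) - P = -((P : ℤ) + 1) by ring]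
    refine (dvd_neg).2 ?_
    rw [← hP]; push_cast; exact dvd_refl _
  have key : (F : ℤ) ∣ (-1) ^ w * (Y : ℤ) + 1 := by
    have h4 : (F : ℤ) ∣ (N : ℤ) + 1 := by exact_mod_cast hN
    have h5 : ((P : ℤ) ^ w * Y + 1) ≡ ((-1) ^ w * Y + 1) [ZMOD F] :=
      ((c2.pow w).mul_right _).add_right 1
    have h6 : (N : ℤ) + 1 = (P : ℤ) ^ w * Y + 1 := by rw [hY]; push_cast; ring
    rw [h6] at h4
    exact (Int.ModEq.dvd_iff h5).1 h4
  rcases Nat.even_or_odd w with hev | hodd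
  · exfalso
    rw [hev.neg_one_pow, one_mul] at key
    have : F ∣ Y + 1 := by exact_mod_cast key
    have := Nat.le_of_dvd (by omega) this
    omega
  · refine ⟨w, hodd, ?_⟩
    rw [hodd.neg_one_pow] at key
    have h7 : (F : ℤ) ∣ ((Y - 1 : ℕ) : ℤ) := by
      rw [Nat.cast_sub hY0]; push_cast
      have : (Y : ℤ) - 1 = -(-1 * (Y : ℤ) + 1) := by ring
      rw [this]; exact (dvd_neg).2 key
    have h8 : F ∣ Y - 1 := by exact_mod_cast h7
    have h9 : Y - 1 = 0 := Nat.eq_zero_of_dvd_of_lt h8 (by omega)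
    have h10 : Y = 1 := by omega
    rw [hY, h10, mul_one]

/-- two coprime `F`, `F'` cannot both be degenerate -/
theorem uniq {F F' P P' w w' : ℕ} (hP : P + 1 = F) (hP' : P' + 1 = F') (h2 : 2 ≤ P)
    (hco : Nat.Coprime F F') (hw : Odd w) (hw' : Odd w') (h : P ^ w = P' ^ w') : False := by
  have hw0 : 0 < w := hw.pos
  have hw0' : 0 < w' := hw'.pos
  set g := Nat.gcd w w' with hg
  have hg0 : 0 < g := Nat.gcd_pos_of_pos_left _ hw0
  obtain ⟨α, hα⟩ : g ∣ w := Nat.gcd_dvd_left _ _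
  obtain ⟨β, hβ⟩ : g ∣ w' := Nat.gcd_dvd_right _ _
  have hαo : Odd α := by rw [hα] at hw; exact (Nat.odd_mul.1 hw).2
  have hβo : Odd β := by rw [hβ] at hw'; exact (Nat.odd_mul.1 hw').2
  have hcop : Nat.Coprime α β := by
    have := Nat.coprime_div_gcd_div_gcd (m := w) (n := w') hg0
    rwa [← hg, show w / g = α by rw [hα]; exact Nat.mul_div_cancel_left _ hg0,
      show w' / g = β by rw [hβ]; exact Nat.mul_div_cancel_left _ hg0] at this
  have hαβ : P ^ α = P' ^ β := by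
    have : (P ^ α) ^ g = (P' ^ β) ^ g := by
      rw [← pow_mul, ← pow_mul, mul_comm α g, mul_comm β g, ← hα, ← hβ, h]
    exact Nat.pow_left_injective (by omega) this
  have hP0 : 0 < P := by omega
  have hP'0 : 0 < P' := by
    rcases Nat.eq_zero_or_pos P' with h0 | h0
    · rw [h0, zero_pow (by have := hβo.pos; omega)] at hαβ
      have : 0 < P ^ α := by positivity
      omega
    · exact h0
  obtain ⟨s, t, hst⟩ : ∃ s t : ℕ, α * s = β * t + 1 := by
    rcases Nat.lt_or_ge 1 β with hb | hb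
    · obtain ⟨s, hs⟩ := Nat.exists_mul_mod_eq_one_of_coprime hcop hb
      refine ⟨s, α * s / β, ?_⟩
      have := Nat.div_add_mod (α * s) β
      omega
    · have hb1 : β = 1 := by have := hβo.pos; omega
      refine ⟨1, α - 1, ?_⟩
      have := hαo.pos
      rw [hb1]; omega
  have hα0 : α ≠ 0 := by have := hαo.pos; omega
  have hdv : P ^ t ∣ P' ^ s := by
    rw [← Nat.pow_dvd_pow_iff hα0, ← pow_mul, ← pow_mul, mul_comm t α, mul_comm s α, pow_mul, hαβ, ← pow_mul,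
      hst]
    exact pow_dvd_pow _ (by omega)
  obtain ⟨X, hX⟩ := hdv
  have e1 : P' = X ^ α := by
    have e : P' ^ (β * t) * P' = P' ^ (β * t) * X ^ α := by
      have a1 : P' ^ (β * t) * P' = (P' ^ s) ^ α := by
        rw [← pow_succ, ← hst, ← pow_mul, mul_comm α s]
      rw [a1, hX, mul_pow, ← pow_mul, mul_comm t α, pow_mul, hαβ, ← pow_mul]
    exact Nat.eq_of_mul_eq_mul_left (by positivity) e
  have e2 : P = X ^ β := by
    have e : P ^ (β * t) * P = P ^ (β * t) * X ^ β := by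
      have a1 : P ^ (β * t) * P = (P' ^ s) ^ β := by
        rw [← pow_succ, ← hst, ← pow_mul, mul_comm s β, pow_mul P' β s, ← hαβ, ← pow_mul]
      rw [a1, hX, mul_pow, ← pow_mul, mul_comm t β]
    exact Nat.eq_of_mul_eq_mul_left (by positivity) e
  have hX1 : 1 ≤ X := by
    rcases Nat.eq_zero_or_pos X with h0 | h0
    · rw [h0, zero_pow hα0] at e1; omega
    · exact h0
  have d1 : X + 1 ∣ F := by
    have := Odd.nat_add_dvd_pow_add_pow X 1 hβo
    rwa [one_pow, ← e2, hP] at this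
  have d2 : X + 1 ∣ F' := by
    have := Odd.nat_add_dvd_pow_add_pow X 1 hαo
    rwa [one_pow, ← e1, hP'] at this
  have := Nat.Coprime.eq_one_of_dvd (Nat.Coprime.coprime_dvd_left d1 (Nat.Coprime.coprime_dvd_right d2 hco))
    (dvd_refl _)
  omega

end Pool.Agent.TH55.LP
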