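import Pool.Agent.TH55.LP.Bd

set_option autoImplicit false

/-! The sum over the coprime factors of `n`. -/

namespace Pool.Agent.TH55.LP

open Real Finset

/-- the exponent of `q` in `F - 1` -/
def bx (q F : ℕ) : ℕ := (F - 1).factorization q

/-- the part of `F - 1` prime to `q` -/
def mx (q F : ℕ) : ℕ := (F - 1) / q ^ (F - 1).factorization q

theorem bx_mx (q F : ℕ) : F - 1 = q ^ bx q F * mx q F := (Nat.ordProj_mul_ordCompl_eq_self (F - 1) q).symm

theorem mx_pos {q F : ℕ} (hF : 2 ≤ F) : 1 ≤ mx q F := Nat.ordCompl_pos q (by omega)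

theorem not_dvd_mx {q F : ℕ} (hq : q.Prime) (hF : 2 ≤ F) : ¬ q ∣ mx q F := Nat.not_dvd_ordCompl hq (by omega)

/-- the data -/
structure Dat (ι : Type*) (T : Finset ι) (F : ι → ℕ) (n q a m : ℕ) : Prop where
  card : 2 ≤ T.card
  F3 : ∀ i ∈ T, 3 ≤ F i
  co : ∀ i ∈ T, ∀ j ∈ T, i ≠ j → Nat.Coprime (F i) (F j)
  prod : ∏ i ∈ T, F i = n
  dvd : ∏ i ∈ T, (F i - 1) ∣ n - 1
  hq : q.Prime
  nm : n - 1 = q ^ a * m
  qm : ¬ q ∣ m

variable {ι : Type*} {T : Finset ι} {F : ι → ℕ} {n q a m : ℕ}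

theorem Dat.lt (h : Dat ι T F n q a m) {i : ι} (hi : i ∈ T) : F i < n := by
  classical
  rw [← h.prod, ← mul_prod_erase T F hi]
  have h1 : 1 ≤ (T.erase i).card := by rw [card_erase_of_mem hi]; have := h.card; omega
  obtain ⟨j, hj⟩ := Finset.card_pos.1 (show 0 < (T.erase i).card by omega)
  have h2 : F j ≤ ∏ x ∈ T.erase i, F x := by
    refine Nat.le_of_dvd (prod_pos fun x hx => ?_) (dvd_prod_of_mem F hj)
    have := h.F3 x (mem_of_mem_erase hx); omega
  have h3 := h.F3 j (mem_of_mem_erase hj)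
  have h4 := h.F3 i hi
  nlinarith

theorem Dat.n3 (h : Dat ι T F n q a m) : 3 < n := by
  obtain ⟨i, hi⟩ := Finset.card_pos.1 (show 0 < T.card by have := h.card; omega)
  have h1 := h.lt hi
  have h2 := h.F3 i hi
  omega

theorem Dat.m0 (h : Dat ι T F n q a m) : 1 ≤ m := by
  rcases Nat.eq_zero_or_pos m with h0 | h0
  · have h1 := h.nm
    rw [h0, mul_zero] at h1
    have := h.n3; omega
  · exact h0

theorem Dat.fdvd (h : Dat ι T F n q a m) {i : ι} (hi : i ∈ T) : F i ∣ (n - 1) + 1 := by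
  have := h.n3
  rw [show n - 1 + 1 = n by omega, ← h.prod]
  exact dvd_prod_of_mem F hi

theorem Dat.cop (h : Dat ι T F n q a m) (ha : 1 ≤ a) {i : ι} (hi : i ∈ T) : Nat.Coprime (F i) q := by
  rw [Nat.coprime_comm, Nat.Prime.coprime_iff_not_dvd h.hq]
  intro hd
  have h1 : q ∣ (n - 1) + 1 := hd.trans (h.fdvd hi)
  have h2 : q ∣ n - 1 := by
    rw [h.nm]; exact Dvd.dvd.mul_right (dvd_pow_self q (by omega)) m
  have h3 : q ∣ 1 := (Nat.dvd_add_right h2).1 h1
  exact h.hq.one_lt.ne' (Nat.dvd_one.1 h3)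

theorem Dat.prod_mx (h : Dat ι T F n q a m) : ∏ i ∈ T, mx q (F i) ∣ m := by
  have h1 : ∏ i ∈ T, mx q (F i) ∣ ∏ i ∈ T, (F i - 1) :=
    prod_dvd_prod_of_dvd _ _ fun i _ => by
      conv_rhs => rw [bx_mx q (F i)]
      exact dvd_mul_left _ _
  have h2 : ∏ i ∈ T, mx q (F i) ∣ q ^ a * m := by
    rw [← h.nm]; exact h1.trans h.dvd
  refine Nat.Coprime.dvd_of_dvd_mul_left ?_ h2
  refine Nat.Coprime.pow_right a ?_
  refine Nat.Coprime.prod_left fun i hi => ?_
  rw [Nat.coprime_comm, Nat.Prime.coprime_iff_not_dvd h.hq]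
  have := h.F3 i hi
  exact not_dvd_mx h.hq (by omega)

theorem Dat.sum_mx (h : Dat ι T F n q a m) : ∑ i ∈ T, log (mx q (F i)) ≤ log m := by
  have h1 : ∏ i ∈ T, mx q (F i) ≤ m := Nat.le_of_dvd h.m0 h.prod_mx
  rw [← Real.log_prod (fun i hi => by
    have := mx_pos (q := q) (show 2 ≤ F i by have := h.F3 i hi; omega)
    positivity)]
  have h2 : (0 : ℝ) < ∏ i ∈ T, (mx q (F i) : ℝ) := prod_pos fun i hi => by
    have := mx_pos (q := q) (show 2 ≤ F i by have := h.F3 i hi; omega)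
    positivity
  exact log_le_log h2 (by exact_mod_cast h1)

/-- `F i` is degenerate -/
def Dg (F : ι → ℕ) (n : ℕ) (i : ι) : Prop := ∃ u v : ℕ, 1 ≤ v ∧ (n - 1) ^ u = (F i - 1) ^ v

theorem Dat.dg (h : Dat ι T F n q a m) {i : ι} (hi : i ∈ T) (hd : Dg F n i) :
    ∃ w, Odd w ∧ 3 ≤ w ∧ n - 1 = (F i - 1) ^ w := by
  obtain ⟨u, v, hv, huv⟩ := hd
  have h3 := h.F3 i hi
  have hu : 1 ≤ u := by
    by_contra hc
    have h0 : u = 0 := by omega
    rw [h0, pow_zero] at huv
    have : 1 < (F i - 1) ^ v := Nat.one_lt_pow (by omega) (by omega)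
    omega
  obtain ⟨w, hw, hN⟩ := deg h3 (show (F i - 1) + 1 = F i by omega) (h.fdvd hi) hu huv
  refine ⟨w, hw, ?_, hN⟩
  by_contra hc
  have hw1 : w = 1 := by
    obtain ⟨k, hk⟩ := hw; omega
  rw [hw1, pow_one] at hN
  have := h.lt hi
  omega

theorem Dat.dg3 (h : Dat ι T F n q a m) {i : ι} (hi : i ∈ T) (hd : Dg F n i) : 3 * bx q (F i) ≤ a := by
  obtain ⟨w, _, hw3, hN⟩ := h.dg hi hd
  have h1 : (n - 1).factorization q = a := by
    rw [h.nm, Nat.factorization_mul (pow_ne_zero _ h.hq.ne_zero) (by have := h.m0; omega)]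
    simp [h.hq.factorization_self, Nat.factorization_eq_zero_of_not_dvd h.qm]
  have h2 : (n - 1).factorization q = w * bx q (F i) := by
    rw [hN, Nat.factorization_pow]; simp [bx]
  rw [h1] at h2
  rw [h2]
  exact Nat.mul_le_mul_right _ hw3

theorem Dat.dg_uniq (h : Dat ι T F n q a m) {i j : ι} (hi : i ∈ T) (hj : j ∈ T) (hdi : Dg F n i) (hdj : Dg F n j) :
    i = j := by
  by_contra hne
  obtain ⟨w, hw, _, hN⟩ := h.dg hi hdi
  obtain ⟨w', hw', _, hN'⟩ := h.dg hj hdj
  have h1 := h.F3 i hi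
  have h2 := h.F3 j hj
  exact uniq (show (F i - 1) + 1 = F i by omega) (show (F j - 1) + 1 = F j by omega) (by omega)
    (h.co i hi j hj hne) hw hw' (by rw [← hN, ← hN'])

/-- the bound for a nondegenerate factor -/
theorem Dat.nd (h : Dat ι T F n q a m) (ha : 1 ≤ a) (hm : 2 ≤ m) (hA : 4 * log m ≤ a * log q) {i : ι} (hi : i ∈ T)
    (hd : ¬ Dg F n i) : bx q (F i) * log q ≤
      4 / 3 * (log 2 + 9 / 2 * log m) + a * log q * log (mx q (F i)) / (3 * log m) := by
  have h3 := h.F3 i hi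
  exact nondeg (show (F i - 1) + 1 = F i by omega) (h.fdvd hi) h.nm (bx_mx q (F i)) (h.cop ha hi) h.hq.two_le hm
    (mx_pos (by omega)) (fun u v hv he => hd ⟨u, v, hv, he⟩) hA

/-- if `m = 1` there is nothing -/
theorem Dat.m2 (h : Dat ι T F n q a m) : 2 ≤ m := by
  by_contra hc
  have hm1 : m = 1 := by have := h.m0; omega
  have ha : ∀ i ∈ T, Dg F n i := by
    intro i hi
    have h3 := h.F3 i hi
    have hmx : mx q (F i) = 1 := by
      have h1 : mx q (F i) ∣ m := (dvd_prod_of_mem _ hi).trans h.prod_mx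
      rw [hm1] at h1
      exact Nat.dvd_one.1 h1
    have hP : F i - 1 = q ^ bx q (F i) := by
      conv_lhs => rw [bx_mx q (F i)]
      rw [hmx, mul_one]
    have hN : n - 1 = q ^ a := by rw [h.nm, hm1, mul_one]
    have ha1 : 1 ≤ a := by
      by_contra h0
      have : a = 0 := by omega
      rw [this, pow_zero] at hN
      have := h.n3; omega
    refine ⟨bx q (F i), a, ha1, ?_⟩
    rw [hN, hP, ← pow_mul, ← pow_mul, mul_comm]
  obtain ⟨i, hi, j, hj, hij⟩ := Finset.one_lt_card.1 (show 1 < T.card by have := h.card; omega)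
  exact hij (h.dg_uniq hi hj (ha i hi) (ha j hj))

theorem Dat.log_ge (h : Dat ι T F n q a m) :
    (a : ℝ) * log q ≤ ∑ i ∈ T, bx q (F i) * log q + T.card * log (3 / 2) := by
  have hq0 : (0 : ℝ) < q := by exact_mod_cast h.hq.pos
  have hm0 : (0 : ℝ) < m := by exact_mod_cast h.m0
  have h1 : log ((n - 1 : ℕ) : ℝ) = a * log q + log m := by
    rw [h.nm]; push_cast
    rw [log_mul (by positivity) (by positivity), log_pow]
  have h2 : log ((n - 1 : ℕ) : ℝ) ≤ log n := by
    refine log_le_log ?_ (by exact_mod_cast Nat.sub_le n 1)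
    have := h.n3
    exact_mod_cast (show 0 < n - 1 by omega)
  have h3 : log n = ∑ i ∈ T, log (F i) := by
    rw [← h.prod]; push_cast
    rw [Real.log_prod]
    intro i hi
    have := h.F3 i hi
    positivity
  have h4 : ∀ i ∈ T, log (F i) ≤ bx q (F i) * log q + log (mx q (F i)) + log (3 / 2) := by
    intro i hi
    have h5 := h.F3 i hi
    have hmx := mx_pos (q := q) (show 2 ≤ F i by omega)
    have hmx0 : (0 : ℝ) < mx q (F i) := by exact_mod_cast hmx
    have h6 : ((F i - 1 : ℕ) : ℝ) = (q : ℝ) ^ bx q (F i) * mx q (F i) := by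
      conv_lhs => rw [bx_mx q (F i)]
      push_cast; ring
    have h7 : (F i : ℝ) ≤ ((q : ℝ) ^ bx q (F i) * mx q (F i)) * (3 / 2) := by
      rw [← h6, Nat.cast_sub (by omega)]
      have : (3 : ℝ) ≤ F i := by exact_mod_cast h5
      push_cast; linarith
    have h8 : (0 : ℝ) < F i := by
      have : (3 : ℝ) ≤ F i := by exact_mod_cast h5
      linarith
    have h9 := log_le_log h8 h7
    rwa [log_mul (by positivity) (by norm_num), log_mul (by positivity) (by positivity), log_pow] at h9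
  have h5 := sum_le_sum h4
  rw [sum_add_distrib, sum_add_distrib, sum_const, nsmul_eq_mul] at h5
  have h6 := h.sum_mx
  linarith

theorem Dat.total (h : Dat ι T F n q a m) : (a : ℝ) * log q ≤ 25 * T.card * log m := by
  classical
  have hm := h.m2
  have hM2 : log 2 ≤ log m := log_le_log (by norm_num) (by exact_mod_cast hm)
  have hl2 : 0 < log 2 := log_pos (by norm_num)
  have hM : 0 < log m := by linarith
  have hK : (2 : ℝ) ≤ T.card := by exact_mod_cast h.card
  have hlq : 0 < log q := log_pos (by exact_mod_cast h.hq.one_lt)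
  by_cases hA : 4 * log m ≤ a * log q
  swap
  · nlinarith
  have ha : 1 ≤ a := by
    by_contra hc
    have h0 : a = 0 := by omega
    rw [h0] at hA; push_cast at hA; linarith
  set A : ℝ := a * log q with hAdef
  have hA0 : 0 < A := by linarith
  set Bd : ι → ℝ := fun i => 4 / 3 * (log 2 + 9 / 2 * log m) + A * log (mx q (F i)) / (3 * log m) with hBd
  have hBd0 : ∀ i ∈ T, 0 ≤ Bd i := by
    intro i hi
    have h3 := h.F3 i hi
    have : 0 ≤ log (mx q (F i)) := log_nonneg (by exact_mod_cast mx_pos (q := q) (show 2 ≤ F i by omega))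
    simp only [hBd]
    positivity
  have h1 : ∑ i ∈ T, (bx q (F i) : ℝ) * log q ≤ A / 3 + ∑ i ∈ T, Bd i := by
    rw [← sum_filter_add_sum_filter_not T (fun i => Dg F n i) (fun i => (bx q (F i) : ℝ) * log q)]
    have e1 : ∑ i ∈ T.filter (fun i => Dg F n i), (bx q (F i) : ℝ) * log q ≤ A / 3 := by
      have hc : (T.filter (fun i => Dg F n i)).card ≤ 1 := by
        rw [card_le_one]
        intro i hi j hj
        rw [mem_filter] at hi hj
        exact h.dg_uniq hi.1 hj.1 hi.2 hj.2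
      have hb : ∀ i ∈ T.filter (fun i => Dg F n i), (bx q (F i) : ℝ) * log q ≤ A / 3 := by
        intro i hi
        rw [mem_filter] at hi
        have h3 : (3 : ℝ) * bx q (F i) ≤ a := by exact_mod_cast h.dg3 hi.1 hi.2
        rw [hAdef]
        nlinarith
      calc _ ≤ ∑ i ∈ T.filter (fun i => Dg F n i), A / 3 := sum_le_sum hb
        _ = (T.filter (fun i => Dg F n i)).card * (A / 3) := by rw [sum_const, nsmul_eq_mul]
        _ ≤ 1 * (A / 3) := mul_le_mul_of_nonneg_right (by exact_mod_cast hc) (by positivity)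
        _ = _ := one_mul _
    have e2 : ∑ i ∈ T.filter (fun i => ¬ Dg F n i), (bx q (F i) : ℝ) * log q ≤ ∑ i ∈ T, Bd i := by
      calc _ ≤ ∑ i ∈ T.filter (fun i => ¬ Dg F n i), Bd i := by
            refine sum_le_sum fun i hi => ?_
            rw [mem_filter] at hi
            exact h.nd ha hm hA hi.1 hi.2
        _ ≤ _ := sum_le_sum_of_subset_of_nonneg (filter_subset _ _) fun i hi _ => hBd0 i hi
    linarith
  have h2 : ∑ i ∈ T, Bd i ≤ T.card * (4 / 3 * (log 2 + 9 / 2 * log m)) + A / 3 := by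
    simp only [hBd]
    rw [sum_add_distrib, sum_const, nsmul_eq_mul]
    have e1 : ∑ i ∈ T, A * log (mx q (F i)) / (3 * log m) = A / (3 * log m) * ∑ i ∈ T, log (mx q (F i)) := by
      rw [mul_sum]; refine sum_congr rfl fun i _ => by ring
    have e2 : A / (3 * log m) * ∑ i ∈ T, log (mx q (F i)) ≤ A / (3 * log m) * log m :=
      mul_le_mul_of_nonneg_left h.sum_mx (by positivity)
    have e3 : A / (3 * log m) * log m = A / 3 := by field_simp
    rw [e1]
    linarith
  have h3 := h.log_ge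
  have h4 : log (3 / 2) ≤ log 2 := log_le_log (by norm_num) (by norm_num)
  rw [← hAdef] at h3
  have h5 : A ≤ 3 * (T.card * (4 / 3 * (log 2 + 9 / 2 * log m)) + T.card * log 2) := by
    have : (T.card : ℝ) * log (3 / 2) ≤ T.card * log 2 := mul_le_mul_of_nonneg_left h4 (by positivity)
    linarith
  have h6 : (T.card : ℝ) * log 2 ≤ T.card * log m := mul_le_mul_of_nonneg_left hM2 (by positivity)
  nlinarith

end Pool.Agent.TH55.LP
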